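import Pool.Agent.helper60.EPT.SpecS

/-! Row DFD of project EPT, part S. -/

set_option autoImplicit false

namespace Pool.Agent.EPT

open D

theorem DFD_cg (f g : D → D) (hf : FP f) (h : ∀ x, f x = g x) : FP g := by
  have e : f = g := funext h
  rw [← e]
  exact hf

theorem DFD_l2 (hC : Cal) (l : D → D) (hl : FP l) : FP fun x => tv ((l x).toList.length = 2) := by
  have h1 := hC.snd _ (hC.snd l hl)
  refine DFD_cg _ _ (hC.and _ _ (hC.snd l hl) (hC.not _ h1)) fun x => ?_
  refine tv_congr _ _ ?_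
  rw [tv_ne_nil]
  cases h : l x with
  | nil => simp
  | cons a b =>
    cases b with
    | nil => simp
    | cons b c => cases c <;> simp

theorem DFD_l3 (hC : Cal) (l : D → D) (hl : FP l) : FP fun x => tv ((l x).toList.length = 3) := by
  have h1 := hC.snd _ (hC.snd l hl)
  refine DFD_cg _ _ (hC.and _ _ h1 (hC.not _ (hC.snd _ h1))) fun x => ?_
  refine tv_congr _ _ ?_
  rw [tv_ne_nil]
  cases h : l x with
  | nil => simp
  | cons a b =>
    cases b with
    | nil => simp
    | cons b c =>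
      cases c with
      | nil => simp
      | cons c d => cases d <;> simp

theorem DFD_nl (hC : Cal) (l : D → D) (hl : FP l) : FP fun x => nl (l x) := by
  have h1 := hC.not _ (hC.not _ (hC.fst l hl))
  refine DFD_cg _ _ (hC.cons _ _ h1 (hC.cons _ _ (hC.const one) (hC.snd l hl))) fun x => ?_
  unfold nl
  congr 1
  refine tv_congr _ _ ?_
  rw [tv_eq_nil]

theorem DFD_cl0 (hC : Cal) (hL : CalL) : FP fun c => ofList (cl0 c) := by
  have h1 := DFD_nl hC _ (hC.fst _ hC.id)
  have h2 := DFD_nl hC _ (hC.fst _ (hC.snd _ hC.id))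
  have h3 := DFD_nl hC _ (hC.snd _ (hC.snd _ hC.id))
  have h4 := hC.cons _ _ h1 (hC.cons _ _ h2 (hC.cons _ _ h3 (hC.const nil)))
  refine DFD_cg _ _ (hL.dd _ h4) fun c => ?_
  rfl

theorem DFD_st0 (hC : Cal) (hL : CalL) : FP fun c => ofList (st0 c) := by
  have h1 := DFD_cl0 hC hL
  have h2 := DFD_l3 hC _ h1
  have h3 := DFD_l2 hC _ h1
  have hc : ∀ a : D, FP fun c => cons a (ofList (cl0 c)) := fun a => hC.cons _ _ (hC.const a) h1
  have hcc : ∀ a b : D, FP fun c => cons a (cons b (ofList (cl0 c))) := fun a b => hC.cons _ _ (hC.const a) (hc b)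
  have A1 : FP fun c => cons (ofList (cl0 c)) nil := hC.cons _ _ h1 (hC.const nil)
  have A2 : FP fun c => cons (cons yp (ofList (cl0 c))) (cons (cons ym (ofList (cl0 c))) nil) :=
    hC.cons _ _ (hc yp) (hC.cons _ _ (hc ym) (hC.const nil))
  have A3 : FP fun c => cons (cons yp (cons wp (ofList (cl0 c)))) (cons (cons yp (cons wm (ofList (cl0 c))))
      (cons (cons ym (cons wp (ofList (cl0 c)))) (cons (cons ym (cons wm (ofList (cl0 c)))) nil))) :=
    hC.cons _ _ (hcc yp wp) (hC.cons _ _ (hcc yp wm) (hC.cons _ _ (hcc ym wp) (hC.cons _ _ (hcc ym wm) (hC.const nil))))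
  refine DFD_cg _ _ (hC.cond _ _ _ h2 A1 (hC.cond _ _ _ h3 A2 A3)) fun c => ?_
  unfold st0
  simp only [toList_ofList, tv_eq_nil]
  by_cases e3 : (cl0 c).length = 3
  · rw [if_neg (fun h => h e3), if_pos e3]
    rfl
  · rw [if_pos e3, if_neg e3]
    by_cases e2 : (cl0 c).length = 2
    · rw [if_neg (fun h => h e2), if_pos e2]
      rfl
    · rw [if_pos e2, if_neg e2]
      rfl

theorem DFD_F0 (hC : Cal) (hL : CalL) (hDFA : DFA_stmt) : FP F0 := by
  have h1 := hC.comp (fun c => ofList (st0 c)) (fun y => y.fst) (DFD_st0 hC hL) (hC.fst _ hC.id)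
  have h2 := hL.flatMap (fun y => ofList (st0 y.fst)) (fun x => x) (fun _ => nil) h1 hC.id (hC.const nil)
  refine DFD_cg _ _ (hDFA.2 _ h2) fun z => ?_
  unfold F0
  congr 2
  simp only [fst_cons, toList_ofList]

theorem DFD_cv (hC : Cal) (hL : CalL) : FP cv := by
  have h0 : FP fun c : D => c.fst := hC.fst _ hC.id
  have h1 : FP fun c : D => c.snd := hC.snd _ hC.id
  have h2 : FP fun c : D => c.snd.fst := hC.fst _ h1
  have h3 : FP fun c : D => c.snd.snd := hC.snd _ h1
  have h4 : FP fun c : D => c.snd.snd.fst := hC.fst _ h3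
  have h5 : FP cv1 := hC.cons _ _ h0 (hC.cons _ _ (hC.cond _ _ _ h1 h2 h0) (hC.cond _ _ _ h3 h4 h0))
  have h6 := hL.map (fun y => cv1 y.fst) (fun x => x) (fun _ => nil) (hC.comp cv1 _ h5 h0) hC.id (hC.const nil)
  exact h6

theorem DFD_tmr (hC : Cal) (hL : CalL) : FP fun x => tmr x.fst x.snd := by
  have h1 := hL.flatMap (fun _ => ofList (List.replicate 30 nil)) (fun y : D => y.snd) (fun _ => nil)
    (hC.const _) (hC.snd _ hC.id) (hC.const nil)
  have h2 := hL.app (fun _ => ofList (List.replicate 10 nil)) _ (hC.const _) h1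
  have h3 := hL.flatMap _ (fun x : D => cons nil x.fst) (fun x : D => x.snd) h2
    (hC.cons _ _ (hC.const nil) (hC.fst _ hC.id)) (hC.snd _ hC.id)
  refine DFD_cg _ _ h3 fun x => ?_
  unfold tmr
  simp only [toList_ofList, snd_cons]

theorem DFD (hC : Cal) (hL : CalL) (hDFA : DFA_stmt) : DFD_stmt :=
  ⟨DFD_F0 hC hL hDFA, DFD_cv hC hL, DFD_tmr hC hL⟩

end Pool.Agent.EPT
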